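import Pool.Agent.W973.SRR.Defs

/-!
# Rationalizability of sets of stable roommates matchings: preferences at the terminals
-/

set_option autoImplicit false

namespace Pool.Agent.W42.SRR

open Pool.Agent.W973.SRR Pool.Agent.NPC

theorem nr_pr (i : ℕ) : nr (pr i) = i := by unfold nr pr; omega

theorem pr_div (i : ℕ) : pr i / 3 = i / 3 := by unfold pr; omega

theorem l1 {X Y Z W U : Prop} (t2 : X ↔ ¬ Y) (b1 : Z ↔ ¬ Y) (t1 : W ↔ ¬ Z) (a1 : U ↔ ¬ W) :
    X ↔ U := by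
  rw [t2, a1, t1, b1, not_not]

theorem l2 {X A1 A2 A3 A4 A5 A6 U : Prop} (t6 : X ↔ ¬ A1) (b3 : A2 ↔ ¬ A1) (t5 : A3 ↔ ¬ A2)
    (a2 : A4 ↔ ¬ A3) (t4 : A5 ↔ ¬ A4) (b2 : A6 ↔ ¬ A5) (t3 : U ↔ ¬ A6) : X ↔ ¬ U := by
  rw [t6, t3, b2, t4, a2, t5, b3]
  simp only [not_not]

theorem fw2 (h1 : S_BAS) (h2 : S_OCC) (h3 : S_EV) (h4 : S_INV) (h5 : S_ALT) (h6 : S_TOT) :
    S_FW2 := by
  clear h2
  intro ψ P hD hP hf hg i hi
  obtain ⟨hNO, -, hb⟩ := h1 ψ
  obtain ⟨hnr, hpr, hv1, hv2, hv3⟩ := hb hD i hi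
  obtain ⟨e1, e2, e3⟩ := h3 ψ hD
  have hc : i / 3 < ψ.length := by omega
  have hgs := hg i hi
  have If := h4 ψ hD none
  have Ig := h4 ψ hD (some (vv ψ i))
  have gV := (e1 i hi).1
  have gW := (e1 i hi).2
  have fV := (e2 (i / 3) hc none (fun j _ _ h => by simp at h)).1
  have fW := (e2 (i / 3) hc none (fun j _ _ h => by simp at h)).2
  have fP := (e3 i hi none).1
  have fQ := (e3 i hi none).2
  have fPk := (e3 (pr i) hpr none).1
  have fQk := (e3 (pr i) hpr none).2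
  have gP := (e3 i hi (some (vv ψ i))).1
  have gQ := (e3 i hi (some (vv ψ i))).2
  have gPk := (e3 (pr i) hpr (some (vv ψ i))).1
  have gQk := (e3 (pr i) hpr (some (vv ψ i))).2
  rw [nr_pr] at gPk gQk
  rw [pr_div] at gPk gQk
  have hne : ¬ (some (vv ψ i) = some (vv ψ (pr i))) := fun h => hv2 (Option.some.inj h).symm
  rw [if_neg hne, if_pos rfl] at gPk gQk
  rw [if_pos rfl] at gP gQ
  have hn1 : ¬ ((none : Option ℕ) = some (vv ψ i)) := by simp
  have hn2 : ∀ j, ¬ ((none : Option ℕ) = some (vv ψ j)) := by simp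
  rw [if_neg (hn2 _), if_neg (hn2 _)] at fP fQ fPk fQk
  -- numbers
  have lV : aV (i / 3) < 8 * ψ.length := by unfold aV; omega
  have lW : aW (i / 3) < 8 * ψ.length := by unfold aW; omega
  have lP : aP i < 8 * ψ.length := by unfold aP; omega
  have lQ : aQ i < 8 * ψ.length := by unfold aQ; omega
  have lPk : aP (pr i) < 8 * ψ.length := by have := pr_div i; unfold aP; omega
  have lQk : aQ (pr i) < 8 * ψ.length := by have := pr_div i; unfold aQ; omega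
  have nVW : aV (i / 3) ≠ aW (i / 3) := by unfold aV aW; omega
  have nVP : aV (i / 3) ≠ aP i := by unfold aV aP; omega
  have nVQ : aV (i / 3) ≠ aQ i := by unfold aV aQ; omega
  have nPQ : aP i ≠ aQ i := by unfold aP aQ; omega
  have nWP : aW (i / 3) ≠ aP i := by unfold aW aP; omega
  have nVQk : aV (i / 3) ≠ aQ (pr i) := by unfold aV aQ; omega
  have nWQk : aW (i / 3) ≠ aQ (pr i) := by
    have := pr_div i; unfold aW aQ; omega
  have nWPk : aW (i / 3) ≠ aP (pr i) := by unfold aW aP; omega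
  have nPQk : aP (pr i) ≠ aQ (pr i) := by unfold aP aQ; omega
  have nc1 : cnQ ψ i ≠ aQ i := by rw [← gQ]; exact Ig.ne _ lQ
  have nc2 : cnQ ψ i ≠ aP i := by
    intro h
    have h' := Ig.inv _ lQ
    rw [gQ, h, gP] at h'
    exact nVQ h'
  have lc : cnQ ψ i < 8 * ψ.length := by rw [← gQ]; exact Ig.lt _ lQ
  have nd1 : cnP ψ (pr i) ≠ aP (pr i) := by rw [← gPk]; exact Ig.ne _ lPk
  have nd2 : cnP ψ (pr i) ≠ aQ (pr i) := by
    intro h
    have h' := Ig.inv _ lPk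
    rw [gPk, h, gQk] at h'
    exact nWPk h'
  have ld : cnP ψ (pr i) < 8 * ψ.length := by rw [← gPk]; exact Ig.lt _ lPk
  have A := fun a ha => h5 _ P _ _ hP If Ig hf hgs a ha
  have B := fun a ha => h5 _ P _ _ hP Ig If hgs hf a ha
  have T := h6 _ P hP
  -- first claim
  have a1 := A _ lV (by rw [fV, gV]; exact nWP)
  rw [gV, fV, fP] at a1
  have b1 := B _ lP (by rw [fP, gP]; exact nVQ)
  rw [gP, fP, gQ] at b1
  have t1 := T _ lP _ lV _ lQ nVP nPQ.symm nVQ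
  have t2 := T _ lQ _ lc _ lP nc1 nPQ nc2
  -- second claim
  have b2 := B _ lV (by rw [fV, gV]; exact nWP.symm)
  rw [gV, fV, gW] at b2
  have t3 := T _ lV _ lP _ lW nVP.symm nVW.symm nWP.symm
  have t4 := T _ lW _ lV _ lQk nVW nWQk.symm nVQk
  have a2 := A _ lW (by rw [fW, gW]; exact nVQk)
  rw [gW, fW, fQk] at a2
  have b3 := B _ lQk (by rw [fQk, gQk]; exact nWPk)
  rw [gQk, fQk, gPk] at b3
  have t5 := T _ lQk _ lW _ lPk nWQk nPQk nWPk
  have t6 := T _ lPk _ ld _ lQk nd1 nPQk.symm nd2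
  exact ⟨l1 t2 b1 t1 a1, l2 t6 b3 t5 a2 t4 b2 t3⟩

end Pool.Agent.W42.SRR
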